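import Pool.Agent.Lib.MP_acafa7_al.MS.Iface2

/-! Module FlipDeg: degrees after a flip. -/

namespace MSG.H21

open Classical

variable {D : Type} [Fintype D]

theorem deg_eq_sum (M : DMap D) (d : D) : M.deg d = ∑ x : D, if M.SameV d x then 1 else 0 := by
  unfold DMap.deg
  rw [Nat.card_eq_fintype_card, Fintype.card_subtype, Finset.card_filter]

theorem split_sum (g : D → ℕ) {x y : D} (hxy : x ≠ y) :
    ∑ z : D, g z = g x + (g y + ∑ z ∈ (Finset.univ.erase x).erase y, g z) := by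
  rw [← Finset.add_sum_erase _ g (Finset.mem_univ x),
    ← Finset.add_sum_erase _ g (Finset.mem_erase.2 ⟨hxy.symm, Finset.mem_univ y⟩)]

/-- FlipDeg -/
theorem flipdeg : FlipDegStatement := by
  intro D _ M M' s ht1 ht2 hn1 hn2 hF d hd1 hd2
  have hne : s ≠ M.ι s := (M.ne s).symm
  have inj := M.φ.injective
  -- the opposite darts are different from `s`, `ι s`
  obtain ⟨h1, h2⟩ := ht1
  obtain ⟨h3, h4⟩ := ht2
  have p2 : M.φ (M.φ s) ≠ s := fun h => h2 (by rw [h] at h1; exact h1)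
  have q2 : M.φ (M.φ (M.ι s)) ≠ M.ι s := fun h => h4 (by rw [h] at h3; exact h3)
  have r2 : M.φ (M.φ (M.ι s)) ≠ s := by
    intro h
    have h5 := congrArg M.φ h
    rw [h3] at h5
    exact hn1 h5
  have u1 : (if M'.SameV d s then 1 else 0 : ℕ) =
      if M.SameV d (M.φ (M.φ (M.ι s))) then 1 else 0 := by
    have e : M'.SameV d s ↔ M.SameV d (M.φ (M.φ (M.ι s))) := by
      rw [← hF.sv d _ hd1 hd2 r2 q2]
      exact ⟨fun h => M'.sameV_trans h hF.sv0, fun h => M'.sameV_trans h (M'.sameV_symm hF.sv0)⟩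
    simp only [e]
  have u2 : (if M'.SameV d (M.ι s) then 1 else 0 : ℕ) =
      if M.SameV d (M.φ (M.φ s)) then 1 else 0 := by
    have e : M'.SameV d (M.ι s) ↔ M.SameV d (M.φ (M.φ s)) := by
      rw [← hF.sv d _ hd1 hd2 p2 (Ne.symm hn2)]
      exact ⟨fun h => M'.sameV_trans h hF.sv1, fun h => M'.sameV_trans h (M'.sameV_symm hF.sv1)⟩
    simp only [e]
  have u3 : ∑ x ∈ (Finset.univ.erase s).erase (M.ι s), (if M'.SameV d x then 1 else 0 : ℕ) =
      ∑ x ∈ (Finset.univ.erase s).erase (M.ι s), if M.SameV d x then 1 else 0 := by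
    refine Finset.sum_congr rfl fun x hx => ?_
    rw [Finset.mem_erase, Finset.mem_erase] at hx
    simp only [hF.sv d x hd1 hd2 hx.2.1 hx.1]
  rw [deg_eq_sum M', deg_eq_sum M, split_sum _ hne, split_sum (fun x => if M.SameV d x then 1 else 0)
    hne, u1, u2, u3]
  ring

end MSG.H21
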