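import Pool.Agent.Lib.MP_acafa7_al.MS.Iface2

/-! Module FlipL: the flip of an edge between two different triangles. -/

namespace MSG.H21

open Classical

variable {V D : Type} [Fintype D] {a : Equiv.Perm V}

/-- hypotheses of the flip -/
structure FH (M : DMap D) (s : D) : Prop where
  t1 : M.Tri3 s
  t2 : M.Tri3 (M.ι s)
  n1 : M.ι s ≠ M.φ s
  n2 : M.ι s ≠ M.φ (M.φ s)

/-- the six darts are different -/
structure Six (M : DMap D) (s s1 s2 i0 i1 i2 : D) : Prop where
  e1 : M.φ s = s1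
  e2 : M.φ s1 = s2
  e3 : M.φ s2 = s
  e4 : M.ι s = i0
  e5 : M.φ i0 = i1
  e6 : M.φ i1 = i2
  e7 : M.φ i2 = i0
  e8 : M.ι i0 = s
  d01 : s ≠ s1
  d02 : s ≠ s2
  d12 : s1 ≠ s2
  c01 : i0 ≠ i1
  c02 : i0 ≠ i2
  c12 : i1 ≠ i2
  a00 : s ≠ i0
  a01 : s ≠ i1
  a02 : s ≠ i2
  a10 : s1 ≠ i0
  a11 : s1 ≠ i1
  a12 : s1 ≠ i2
  a20 : s2 ≠ i0
  a21 : s2 ≠ i1
  a22 : s2 ≠ i2

omit [Fintype D] in
theorem FH.six {M : DMap D} {s : D} (H : FH M s) :
    Six M s (M.φ s) (M.φ (M.φ s)) (M.ι s) (M.φ (M.ι s)) (M.φ (M.φ (M.ι s))) := by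
  obtain ⟨⟨h1, h2⟩, ⟨h3, h4⟩, n1, n2⟩ := H
  have inj := M.φ.injective
  have hne := M.ne s
  have hιι := M.ιι s
  have p1 : M.φ s ≠ M.φ (M.φ s) := fun h => h2 (inj h).symm
  have p2 : s ≠ M.φ (M.φ s) := fun h => p1 (by rw [h] at h1 ⊢; grind)
  have q1 : M.φ (M.ι s) ≠ M.φ (M.φ (M.ι s)) := fun h => h4 (inj h).symm
  have q2 : M.ι s ≠ M.φ (M.φ (M.ι s)) := fun h => q1 (by rw [h] at h3 ⊢; grind)
  constructor <;> try grind

variable (M : DMap D) (s : D)

/-- the new face permutation -/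
noncomputable def fphi (d : D) : D :=
  if d = s then M.φ (M.φ s) else if d = M.φ s then M.ι s else
  if d = M.φ (M.φ s) then M.φ (M.ι s) else if d = M.ι s then M.φ (M.φ (M.ι s)) else
  if d = M.φ (M.ι s) then s else if d = M.φ (M.φ (M.ι s)) then M.φ s else M.φ d

omit [Fintype D] in
theorem fphi_inj (H : FH M s) : Function.Injective (fphi M s) := by
  have S := H.six
  obtain ⟨-, -, e3, -, -, -, e7, e8, d01, d02, d12, c01, c02, c12, a00, a01, a02, a10, a11, a12,
    a20, a21, a22⟩ := S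
  have inj := M.φ.injective
  intro x y h
  unfold fphi at h
  split_ifs at h <;> grind

noncomputable def FPhi (H : FH M s) : Equiv.Perm D :=
  Equiv.ofBijective (fphi M s) (Finite.injective_iff_bijective.1 (fphi_inj M s H))

/-- the flipped map -/
noncomputable def fmap (H : FH M s) : DMap D where
  φ := FPhi M s H
  ι := M.ι
  ιι := M.ιι
  ne := M.ne

variable {M s}

theorem fmap_phi (H : FH M s) (d : D) : (fmap M s H).φ d = fphi M s d := rfl

section vals

variable (H : FH M s)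
include H

omit [Fintype D] H in
theorem fv0 : fphi M s s = M.φ (M.φ s) := by
  unfold fphi; rw [if_pos rfl]

omit [Fintype D] in
theorem fv1 : fphi M s (M.φ s) = M.ι s := by
  have S := H.six
  unfold fphi; rw [if_neg S.d01.symm, if_pos rfl]

omit [Fintype D] in
theorem fv2 : fphi M s (M.φ (M.φ s)) = M.φ (M.ι s) := by
  have S := H.six
  unfold fphi; rw [if_neg S.d02.symm, if_neg S.d12.symm, if_pos rfl]

omit [Fintype D] in
theorem fv3 : fphi M s (M.ι s) = M.φ (M.φ (M.ι s)) := by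
  have S := H.six
  unfold fphi; rw [if_neg S.a00.symm, if_neg S.a10.symm, if_neg S.a20.symm, if_pos rfl]

omit [Fintype D] in
theorem fv4 : fphi M s (M.φ (M.ι s)) = s := by
  have S := H.six
  unfold fphi
  rw [if_neg S.a01.symm, if_neg S.a11.symm, if_neg S.a21.symm, if_neg S.c01.symm, if_pos rfl]

omit [Fintype D] in
theorem fv5 : fphi M s (M.φ (M.φ (M.ι s))) = M.φ s := by
  have S := H.six
  unfold fphi
  rw [if_neg S.a02.symm, if_neg S.a12.symm, if_neg S.a22.symm, if_neg S.c02.symm,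
    if_neg S.c12.symm, if_pos rfl]

end vals

omit [Fintype D] in
theorem fvr {d : D} (h0 : d ≠ s) (h1 : d ≠ M.φ s) (h2 : d ≠ M.φ (M.φ s)) (h3 : d ≠ M.ι s)
    (h4 : d ≠ M.φ (M.ι s)) (h5 : d ≠ M.φ (M.φ (M.ι s))) : fphi M s d = M.φ d := by
  unfold fphi
  rw [if_neg h0, if_neg h1, if_neg h2, if_neg h3, if_neg h4, if_neg h5]

/-- transfer of vertex functions, old to new -/
noncomputable def up {α : Type*} (M : DMap D) (s : D) (h : D → α) (d : D) : α :=
  if d = s then h (M.φ (M.φ (M.ι s))) else if d = M.ι s then h (M.φ (M.φ s)) else h d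

/-- new to old -/
noncomputable def down {α : Type*} (M : DMap D) (s : D) (h : D → α) (d : D) : α :=
  if d = s then h (M.φ (M.ι s)) else if d = M.ι s then h (M.φ s) else h d

omit [Fintype D] in
theorem up_inv {α : Type*} (H : FH M s) (h : D → α) (hh : ∀ d, h (M.φ d) = h (M.ι d)) (d : D) :
    up M s h (fphi M s d) = up M s h (M.ι d) := by
  have S := H.six
  obtain ⟨-, -, e3, -, -, -, e7, e8, d01, d02, d12, c01, c02, c12, a00, a01, a02, a10, a11, a12,
    a20, a21, a22⟩ := S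
  have hι : ∀ x, M.ι (M.ι x) = x := M.ιι
  have inj := M.φ.injective
  have b0 := hh s
  have b1 := hh (M.φ s)
  have b2 := hh (M.φ (M.φ s))
  have b3 := hh (M.ι s)
  have b4 := hh (M.φ (M.ι s))
  have b5 := hh (M.φ (M.φ (M.ι s)))
  have key : ∀ x, x ≠ s → x ≠ M.ι s → M.ι x ≠ s ∧ M.ι x ≠ M.ι s := by
    intro x h1 h2
    exact ⟨fun h => h2 (by rw [← h, hι]), fun h => h1 (M.ι.injective h)⟩
  by_cases h0 : d = s
  · subst h0; rw [fv0]; unfold up
    rw [if_neg d02.symm, if_neg a20, if_neg a00.symm, if_pos rfl]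
  by_cases h1 : d = M.φ s
  · subst h1; rw [fv1 H]; unfold up
    obtain ⟨k1, k2⟩ := key _ h0 a10
    rw [if_neg a00.symm, if_pos rfl, if_neg k1, if_neg k2, b1]
  by_cases h2 : d = M.φ (M.φ s)
  · subst h2; rw [fv2 H]; unfold up
    obtain ⟨k1, k2⟩ := key _ h0 a20
    rw [if_neg a01.symm, if_neg c01.symm, if_neg k1, if_neg k2, b3, ← b2, e3, e8]
  by_cases h3 : d = M.ι s
  · subst h3; rw [fv3 H, e8]; unfold up
    rw [if_neg a02.symm, if_neg c02.symm, if_pos rfl]
  by_cases h4 : d = M.φ (M.ι s)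
  · subst h4; rw [fv4 H]; unfold up
    obtain ⟨k1, k2⟩ := key _ h0 h3
    rw [if_pos rfl, if_neg k1, if_neg k2, b4]
  by_cases h5 : d = M.φ (M.φ (M.ι s))
  · subst h5; rw [fv5 H]; unfold up
    obtain ⟨k1, k2⟩ := key _ h0 h3
    rw [if_neg d01.symm, if_neg a10, if_neg k1, if_neg k2, b0, ← b5, e7]
  rw [fvr h0 h1 h2 h3 h4 h5]
  obtain ⟨k1, k2⟩ := key _ h0 h3
  have k3 : M.φ d ≠ s := fun h => h2 (inj (by rw [h, e3]))
  have k4 : M.φ d ≠ M.ι s := fun h => h5 (inj (by rw [h, e7]))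
  unfold up
  rw [if_neg k3, if_neg k4, if_neg k1, if_neg k2, hh]

omit [Fintype D] in
theorem down_inv {α : Type*} (H : FH M s) (h : D → α) (hh : ∀ d, h (fphi M s d) = h (M.ι d))
    (d : D) : down M s h (M.φ d) = down M s h (M.ι d) := by
  have S := H.six
  obtain ⟨-, -, e3, -, -, -, e7, e8, d01, d02, d12, c01, c02, c12, a00, a01, a02, a10, a11, a12,
    a20, a21, a22⟩ := S
  have hι : ∀ x, M.ι (M.ι x) = x := M.ιι
  have inj := M.φ.injective
  have b0 := hh s
  have b1 := hh (M.φ s)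
  have b2 := hh (M.φ (M.φ s))
  have b3 := hh (M.ι s)
  have b4 := hh (M.φ (M.ι s))
  have b5 := hh (M.φ (M.φ (M.ι s)))
  rw [fv0] at b0
  rw [fv1 H] at b1
  rw [fv2 H] at b2
  rw [fv3 H, e8] at b3
  rw [fv4 H] at b4
  rw [fv5 H] at b5
  have key : ∀ x, x ≠ s → x ≠ M.ι s → M.ι x ≠ s ∧ M.ι x ≠ M.ι s := by
    intro x h1 h2
    exact ⟨fun h => h2 (by rw [← h, hι]), fun h => h1 (M.ι.injective h)⟩
  by_cases h0 : d = s
  · subst h0; unfold down
    rw [if_neg d01.symm, if_neg a10, if_neg a00.symm, if_pos rfl]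
  by_cases h1 : d = M.φ s
  · subst h1; unfold down
    obtain ⟨k1, k2⟩ := key _ h0 a10
    rw [if_neg d02.symm, if_neg a20, if_neg k1, if_neg k2, b0, b1]
  by_cases h2 : d = M.φ (M.φ s)
  · subst h2; rw [e3]; unfold down
    obtain ⟨k1, k2⟩ := key _ h0 a20
    rw [if_pos rfl, if_neg k1, if_neg k2, b2]
  by_cases h3 : d = M.ι s
  · subst h3; rw [e8]; unfold down
    rw [if_neg a01.symm, if_neg c01.symm, if_pos rfl]
  by_cases h4 : d = M.φ (M.ι s)
  · subst h4; unfold down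
    obtain ⟨k1, k2⟩ := key _ h0 h3
    rw [if_neg a02.symm, if_neg c02.symm, if_neg k1, if_neg k2, b3, b4]
  by_cases h5 : d = M.φ (M.φ (M.ι s))
  · subst h5; rw [e7]; unfold down
    obtain ⟨k1, k2⟩ := key _ h0 h3
    rw [if_neg a00.symm, if_pos rfl, if_neg k1, if_neg k2, b5]
  obtain ⟨k1, k2⟩ := key _ h0 h3
  have k3 : M.φ d ≠ s := fun h => h2 (inj (by rw [h, e3]))
  have k4 : M.φ d ≠ M.ι s := fun h => h5 (inj (by rw [h, e7]))
  unfold down
  rw [if_neg k3, if_neg k4, if_neg k1, if_neg k2, ← hh, fvr h0 h1 h2 h3 h4 h5]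

theorem isFlip (H : FH M s) : IsFlip M (fmap M s H) s where
  ι := fun _ => rfl
  f0 := fv0
  f1 := fv2 H
  f2 := fv4 H
  f3 := fv3 H
  f4 := fv5 H
  f5 := fv1 H
  rest := fun _ h0 h1 h2 h3 h4 h5 => fvr h0 h1 h2 h3 h4 h5
  sv := by
    intro x y hx1 hx2 hy1 hy2
    constructor
    · intro hs h hh
      have h1 := hs (up M s h) (fun d => by
        have := up_inv H h (fun d => propext (hh d)) d
        exact iff_of_eq this)
      unfold up at h1
      rwa [if_neg hx1, if_neg hx2, if_neg hy1, if_neg hy2] at h1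
    · intro hs h hh
      have h1 := hs (down M s h) (fun d => by
        have := down_inv H h (fun d => propext (hh d)) d
        exact iff_of_eq this)
      unfold down at h1
      rwa [if_neg hx1, if_neg hx2, if_neg hy1, if_neg hy2] at h1
  sv0 := by
    intro h hh
    have h1 := hh (M.ι s)
    change h (fphi M s (M.ι s)) ↔ h (M.ι (M.ι s)) at h1
    rw [fv3 H, M.ιι] at h1
    exact h1.symm
  sv1 := by
    intro h hh
    have h1 := hh s
    change h (fphi M s s) ↔ h (M.ι s) at h1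
    rw [fv0] at h1
    exact h1.symm

/-- the potential for the old map -/
noncomputable def kOld (M : DMap D) (s : D) (k : D → ZMod 2) (d : D) : ZMod 2 :=
  if d = s then k (M.ι s) + k (M.φ (M.ι s)) + k (M.φ (M.φ s)) else
  if d = M.φ (M.φ s) then k (M.ι s) else
  if d = M.ι s then k s + k (M.φ s) + k (M.φ (M.φ (M.ι s))) else
  if d = M.φ (M.φ (M.ι s)) then k s else k d

theorem fplanar (H : FH M s) (hP : M.Planar) : (fmap M s H).Planar := by
  have S := H.six
  obtain ⟨-, -, e3, -, -, -, e7, e8, d01, d02, d12, c01, c02, c12, a00, a01, a02, a10, a11, a12,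
    a20, a21, a22⟩ := S
  have hι : ∀ x, M.ι (M.ι x) = x := M.ιι
  have inj := M.φ.injective
  intro k hk
  change ∀ d, k (fphi M s (M.ι d)) + k (M.ι d) = k (fphi M s d) + k d at hk
  have b0 := hk s
  rw [fv0, fv3 H] at b0
  -- values of the old potential
  have K0 : kOld M s k s = k (M.ι s) + k (M.φ (M.ι s)) + k (M.φ (M.φ s)) := by
    unfold kOld; rw [if_pos rfl]
  have K1 : kOld M s k (M.φ s) = k (M.φ s) := by
    unfold kOld; rw [if_neg d01.symm, if_neg d12, if_neg a10, if_neg a12]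
  have K2 : kOld M s k (M.φ (M.φ s)) = k (M.ι s) := by
    unfold kOld; rw [if_neg d02.symm, if_pos rfl]
  have K3 : kOld M s k (M.ι s) = k s + k (M.φ s) + k (M.φ (M.φ (M.ι s))) := by
    unfold kOld; rw [if_neg a00.symm, if_neg a20.symm, if_pos rfl]
  have K4 : kOld M s k (M.φ (M.ι s)) = k (M.φ (M.ι s)) := by
    unfold kOld; rw [if_neg a01.symm, if_neg a21.symm, if_neg c01.symm, if_neg c12]
  have K5 : kOld M s k (M.φ (M.φ (M.ι s))) = k s := by
    unfold kOld; rw [if_neg a02.symm, if_neg a22.symm, if_neg c02.symm, if_pos rfl]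
  have KR : ∀ d, d ≠ s → d ≠ M.φ (M.φ s) → d ≠ M.ι s → d ≠ M.φ (M.φ (M.ι s)) →
      kOld M s k d = k d := by
    intro d h0 h2 h3 h5
    unfold kOld; rw [if_neg h0, if_neg h2, if_neg h3, if_neg h5]
  -- edge values agree
  have key : ∀ d, d ≠ s → d ≠ M.ι s → kOld M s k (M.φ d) + kOld M s k d =
      k (fphi M s d) + k d := by
    intro d h0 h3
    by_cases h1 : d = M.φ s
    · subst h1; rw [fv1 H, K1, K2]
    by_cases h2 : d = M.φ (M.φ s)
    · subst h2; rw [fv2 H, K2, e3, K0]; grind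
    by_cases h4 : d = M.φ (M.ι s)
    · subst h4; rw [fv4 H, K4, K5]
    by_cases h5 : d = M.φ (M.φ (M.ι s))
    · subst h5; rw [fv5 H, K5, e7, K3]; grind
    rw [fvr h0 h1 h2 h3 h4 h5, KR d h0 h2 h3 h5]
    congr 1
    apply KR
    · exact fun h => h2 (inj (by rw [h, e3]))
    · exact fun h => h1 (inj h)
    · exact fun h => h5 (inj (by rw [h, e7]))
    · exact fun h => h4 (inj h)
  have kι : ∀ x, x ≠ s → x ≠ M.ι s → M.ι x ≠ s ∧ M.ι x ≠ M.ι s := by
    intro x h1 h2
    exact ⟨fun h => h2 (by rw [← h, hι]), fun h => h1 (M.ι.injective h)⟩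
  have cond : ∀ d, kOld M s k (M.φ (M.ι d)) + kOld M s k (M.ι d) =
      kOld M s k (M.φ d) + kOld M s k d := by
    intro d
    by_cases h0 : d = s
    · subst h0; rw [K4, K3, K1, K0]; grind
    by_cases h3 : d = M.ι s
    · subst h3; rw [e8, K4, K3, K1, K0]; grind
    obtain ⟨q1, q2⟩ := kι d h0 h3
    rw [key d h0 h3, key _ q1 q2]
    exact hk d
  obtain ⟨h, hh1, hh2⟩ := hP _ cond
  refine ⟨up M s h, fun d => up_inv H h hh1 d, ?_⟩
  have U0 : up M s h s = h (M.φ (M.φ (M.ι s))) := by unfold up; rw [if_pos rfl]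
  have U3 : up M s h (M.ι s) = h (M.φ (M.φ s)) := by
    unfold up; rw [if_neg a00.symm, if_pos rfl]
  have UR : ∀ d, d ≠ s → d ≠ M.ι s → up M s h d = h d := by
    intro d h0 h3; unfold up; rw [if_neg h0, if_neg h3]
  have main : ∀ d, d ≠ s → d ≠ M.ι s →
      k (fphi M s d) + up M s h (fphi M s d) = k d + up M s h d := by
    intro d h0 h3
    obtain ⟨q1, q2⟩ := kι d h0 h3
    rw [up_inv H h hh1 d, UR _ q1 q2, UR _ h0 h3, ← hh1]
    have r1 := key d h0 h3
    have r2 := hh2 d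
    grind
  have m2 := main (M.φ (M.φ s)) d02.symm a20
  have m4 := main (M.φ (M.ι s)) a01.symm c01.symm
  have m1 := main (M.φ s) d01.symm a10
  have m5 := main (M.φ (M.φ (M.ι s))) a02.symm c02.symm
  rw [fv2 H] at m2
  rw [fv4 H] at m4
  rw [fv1 H] at m1
  rw [fv5 H] at m5
  intro d
  change k (fphi M s d) + up M s h (fphi M s d) = k d + up M s h d
  by_cases h0 : d = s
  · subst h0
    rw [fv0]
    exact m2.symm.trans m4.symm
  by_cases h3 : d = M.ι s
  · subst h3
    rw [fv3 H]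
    exact m5.symm.trans m1.symm
  exact main d h0 h3

/-- FlipL -/
theorem flipl : FlipLStatement := by
  intro V D _ a M s ht1 ht2 hn1 hn2
  have H : FH M.toDMap s := ⟨ht1.1, ht2.1, hn1, hn2⟩
  have S := H.six
  obtain ⟨-, -, e3, -, -, -, e7, e8, d01, d02, d12, c01, c02, c12, a00, a01, a02, a10, a11, a12,
    a20, a21, a22⟩ := S
  have hι : ∀ x, M.ι (M.ι x) = x := M.ιι
  have inj := M.φ.injective
  have γs : M.γ (M.ι s) = - M.γ s := M.γι s
  set g : ℤ := M.h (M.φ (M.φ (M.ι s))) + M.γ (M.ι s) + M.h s + M.h (M.φ s) with hg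
  have kι : ∀ x, x ≠ s → x ≠ M.ι s → M.ι x ≠ s ∧ M.ι x ≠ M.ι s := by
    intro x h1 h2
    exact ⟨fun h => h2 (by rw [← h, hι]), fun h => h1 (M.ι.injective h)⟩
  let f' : D → V := fun d => if d = s then M.f (M.φ (M.φ (M.ι s))) else
    if d = M.ι s then M.f (M.φ (M.φ s)) else M.f d
  let γ' : D → ℤ := fun d => if d = s then g else if d = M.ι s then -g else M.γ d
  let h' : D → ℤ := fun d => if d = s then g else if d = M.ι s then -g else
    if d = M.φ (M.φ s) then M.h (M.φ (M.φ s)) + M.γ s + M.h (M.ι s) else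
    if d = M.φ (M.φ (M.ι s)) then M.h (M.φ (M.φ (M.ι s))) + M.γ (M.ι s) + M.h s else M.h d
  have F0 : f' s = M.f (M.φ (M.φ (M.ι s))) := if_pos rfl
  have F3 : f' (M.ι s) = M.f (M.φ (M.φ s)) := by
    simp [f', a00.symm]
  have FR : ∀ d, d ≠ s → d ≠ M.ι s → f' d = M.f d := by
    intro d h0 h3; simp only [f']; rw [if_neg h0, if_neg h3]
  have G0 : γ' s = g := if_pos rfl
  have G3 : γ' (M.ι s) = -g := by simp [γ', a00.symm]
  have GR : ∀ d, d ≠ s → d ≠ M.ι s → γ' d = M.γ d := by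
    intro d h0 h3; simp only [γ']; rw [if_neg h0, if_neg h3]
  have H0 : h' s = g := if_pos rfl
  have H3 : h' (M.ι s) = -g := by simp [h', a00.symm]
  have H2 : h' (M.φ (M.φ s)) = M.h (M.φ (M.φ s)) + M.γ s + M.h (M.ι s) := by
    simp [h', d02.symm, a20]
  have H5 : h' (M.φ (M.φ (M.ι s))) = M.h (M.φ (M.φ (M.ι s))) + M.γ (M.ι s) + M.h s := by
    simp [h', a02.symm, c02.symm, a22.symm]
  have HR : ∀ d, d ≠ s → d ≠ M.ι s → d ≠ M.φ (M.φ s) → d ≠ M.φ (M.φ (M.ι s)) →
      h' d = M.h d := by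
    intro d h0 h3 h2 h5
    simp only [h']; rw [if_neg h0, if_neg h3, if_neg h2, if_neg h5]
  have cmul : ∀ (m n : ℤ) (x : V), (a ^ (m + n)) x = (a ^ m) ((a ^ n) x) := by
    intro m n x; rw [zpow_add]; rfl
  have T0 := M.tgt s
  have T3 := M.tgt (M.ι s)
  rw [hι] at T3
  -- `f (ι s) = a^(γ (ι s) + h s) f (φ s)`
  have R1 : M.f (M.ι s) = (a ^ (M.γ (M.ι s) + M.h s)) (M.f (M.φ s)) := by
    rw [cmul, ← T0, ← cmul, γs, neg_add_cancel, zpow_zero]; rfl
  have R2 : M.f s = (a ^ (M.γ s + M.h (M.ι s))) (M.f (M.φ (M.ι s))) := by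
    rw [cmul, ← T3, ← cmul, γs, add_neg_cancel, zpow_zero]; rfl
  let M' : LMap V D a :=
    { toDMap := fmap M.toDMap s H
      f := f'
      γ := γ'
      h := h'
      γι := by
        intro d
        change γ' (M.ι d) = - γ' d
        by_cases h0 : d = s
        · subst h0; rw [G3, G0]
        by_cases h3 : d = M.ι s
        · subst h3; rw [e8, G3, G0, neg_neg]
        obtain ⟨q1, q2⟩ := kι d h0 h3
        rw [GR _ q1 q2, GR _ h0 h3, M.γι]
      tgt := by
        intro d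
        change (a ^ γ' d) (f' (M.ι d)) = (a ^ h' d) (f' (fphi M.toDMap s d))
        by_cases h0 : d = s
        · subst h0
          rw [G0, H0, fv0, F3, FR _ d02.symm a20]
        by_cases h3 : d = M.ι s
        · subst h3
          rw [G3, H3, fv3 H, e8, F0, FR _ a02.symm c02.symm]
        obtain ⟨q1, q2⟩ := kι d h0 h3
        rw [GR _ h0 h3, FR _ q1 q2, M.tgt]
        by_cases h1 : d = M.φ s
        · subst h1
          rw [fv1 H, F3, HR _ h0 h3 d12 a12]
        by_cases h2 : d = M.φ (M.φ s)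
        · subst h2
          rw [fv2 H, H2, FR _ a01.symm c01.symm, e3, R2, ← cmul]
          congr 2; ring
        by_cases h4 : d = M.φ (M.ι s)
        · subst h4
          rw [fv4 H, F0, HR _ h0 h3 h2 c12]
        by_cases h5 : d = M.φ (M.φ (M.ι s))
        · subst h5
          rw [fv5 H, H5, FR _ d01.symm a10, e7, R1, ← cmul]
          congr 2; ring
        rw [fvr h0 h1 h2 h3 h4 h5, HR _ h0 h3 h2 h5, FR]
        · exact fun h => h2 (inj (by rw [h, e3]))
        · exact fun h => h5 (inj (by rw [h, e7])) }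
  refine ⟨M', ?_, fun hP => fplanar H hP⟩
  exact
    { flip := isFlip H
      fγ := fun d h0 h3 => ⟨FR d h0 h3, GR d h0 h3⟩
      fs := F0
      fι := F3
      γs := G0
      h0 := H0.trans G0.symm
      h1 := H2
      h2 := HR _ a01.symm c01.symm a21.symm c12
      h3 := by
        change h' (M.ι s) = - γ' s
        rw [H3, G0]
      h4 := H5
      h5 := HR _ d01.symm a10 d12 a12
      hr := fun d h0 h1 h2 h3 h4 h5 => HR d h0 h3 h2 h5 }

end MSG.H21
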