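import Pool.Agent.Lib.MP_acafa7_al.MS.Iface1

/-! Lemma 4.1 (module Red): removal of an interior vertex of positive curvature. -/

namespace MSG.H21

open Classical

theorem red (h1 : StarDelStatement) (h2 : ConeStatement) (h3 : FillStatement) : RedStatement := by
  intro V D _ X a hmet hlarge hfree M B Y ω d₀ hω hY hpl hadj hoff hB hloop hcurv
  obtain ⟨k, u, hk, hper, hlink, hadju, hcv, huf, D', _, M', R, j, hwalk, hRk, hcard, hji, hjR,
    hjφ, hjf, hpl', hadj', hoff', hz⟩ := h1 V D X a hmet hfree M B d₀ ω hpl hadj hoff hB hloop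
  rw [hcv] at hcurv
  have hx : M.f d₀ ∈ Y := by
    rcases hY with h | h
    · exact h _
    · exact h.2 _
  have huY : ∀ i, u i ∈ Y := by
    intro i
    rcases hY with h | h
    · exact h _
    · obtain ⟨d, hd⟩ := huf h.1 i
      rw [hd]
      exact h.2 _
  obtain ⟨n, hn, hnul⟩ := h2 V X hmet hlarge Y ω hω (M.f d₀) k u hx hk huY hper hlink hadju
    (by linarith)
  obtain ⟨D'', _, M'', hpl'', hadj'', hrel, hz'⟩ := h3 V D' X a hfree M' R Y ω _ _ n hω hpl' hadj'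
    hwalk hnul
  obtain ⟨j', hj'i, -, hj'φ, hj'f, hj'tri, hcard'⟩ := hrel
  have hRφ : ∀ d, d ∈ R → M'.φ d ∈ R := by
    intro d hd
    have h := hwalk.1.2.2
    have h5 : M'.φ d ∈ R.map M'.φ := List.mem_map_of_mem hd
    rw [h] at h5
    simpa using h5
  refine ⟨D'', inferInstance, M'', fun x => j' ⟨j x, hjR x⟩, ?_, ?_, ?_, hpl'', hadj'', ?_, ?_, ?_⟩
  · intro x y hxy
    have h := hj'i hxy
    exact hji (congrArg Subtype.val h)
  · intro x y hxy
    exact hj'φ ⟨j x, hjR x⟩ ⟨j y, hjR y⟩ (hjφ x y hxy)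
  · intro x
    have h := hj'f ⟨j x, hjR x⟩
    have h' := hjf x
    exact ⟨h.1.trans h'.1, h.2.trans h'.2⟩
  · constructor
    · rintro d ⟨x, rfl⟩
      refine ⟨⟨M.φ x, hoff.1 _ x.2⟩, ?_⟩
      exact (hj'φ ⟨j x, hjR x⟩ ⟨j ⟨M.φ x, hoff.1 _ x.2⟩, hjR _⟩ (hjφ x ⟨M.φ x, hoff.1 _ x.2⟩ rfl)).symm
    · intro d hd
      by_cases hex : ∃ y, j' y = d
      · obtain ⟨y, rfl⟩ := hex
        have hy : y.1 ∉ Set.range j ∪ {d | d ∈ R} := by
          rintro (⟨x, hx⟩ | h)
          · apply hd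
            refine ⟨x, ?_⟩
            simp only
            congr 1
            exact Subtype.ext hx
          · exact y.2 h
        obtain ⟨⟨h31, h32⟩, h33⟩ := hoff'.2 _ hy
        have hφφ : M'.φ (M'.φ y.1) ∉ R := by
          intro h
          apply y.2
          have := hRφ _ h
          rwa [h31] at this
        have hφ1 : M'.φ y.1 ∉ R := fun h => hφφ (hRφ _ h)
        have e1 : M''.φ (j' y) = j' ⟨M'.φ y.1, hφ1⟩ := hj'φ y ⟨M'.φ y.1, hφ1⟩ rfl
        have e2 : M''.φ (j' ⟨M'.φ y.1, hφ1⟩) = j' ⟨M'.φ (M'.φ y.1), hφφ⟩ :=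
          hj'φ ⟨M'.φ y.1, hφ1⟩ ⟨M'.φ (M'.φ y.1), hφφ⟩ rfl
        have e3 : M''.φ (j' ⟨M'.φ (M'.φ y.1), hφφ⟩) = j' y :=
          hj'φ ⟨M'.φ (M'.φ y.1), hφφ⟩ y h31
        refine ⟨⟨?_, ?_⟩, ?_⟩
        · rw [e1, e2, e3]
        · rw [e1]
          intro h
          have := hj'i h
          exact h32 (congrArg Subtype.val this)
        · rw [e1, e2, (hj'f y).2, (hj'f _).2, (hj'f _).2]
          exact h33
      · apply hj'tri d (by simp)
        intro x hx
        exact hex ⟨x, hx⟩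
  · simp only [List.length_nil, add_zero] at hcard'
    rw [hRk] at hcard'
    omega
  · intro hzero
    obtain ⟨hz1, hz2, hz3⟩ := hz hzero
    obtain ⟨hz1', hz2', hz3'⟩ := hz' hz1
    refine ⟨hz1', fun hfY => ?_⟩
    have hf' : ∀ d, M'.f d ∈ Y := by
      intro d
      obtain ⟨d1, hd1⟩ := hz2 d
      rw [hd1]
      exact hfY _
    refine ⟨hz2' hf', ?_⟩
    rintro rfl
    have h5 := hz3 (fun x y z => ⟨hω.s12 x y z, hω.s23 x y z⟩)
    have h6 : Set.range j = ∅ := by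
      ext x
      simp
    rw [h6, Set.empty_union] at h5
    rw [hz3', ← h5]

end MSG.H21
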