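import Pool.Agent.Lib.MP_acafa7_al.MS.Iface1

/-! Proposition 5.1 (b) (module Sph): homotopies of the constant walk have weight 0. -/

namespace MSG.H21

open Classical

theorem face_closed {D : Type} {M : DMap D} {R : List D} (h : M.IsFace R) :
    ∀ d, d ∈ R → M.φ d ∈ R := by
  intro d hd
  have h5 : M.φ d ∈ R.map M.φ := List.mem_map_of_mem hd
  rw [h.2.2] at h5
  simpa using h5

/-- transfer of the triangle darts along `Rel` -/
theorem off_of_rel {V D D' : Type} [Fintype D] [Fintype D'] {a : Equiv.Perm V} {M : LMap V D a}
    {M' : LMap V D' a} {R : List D} {R' : List D'} {n : ℕ} (hR : ∀ d, d ∈ R → M.φ d ∈ R)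
    (hR' : ∀ d, d ∈ R' → M'.φ d ∈ R') (hoff : ∀ d, d ∉ R → M.Tri d) (hrel : M.Rel R M' R' n) :
    (∀ d, d ∉ R' → M'.Tri d) := by
  obtain ⟨j, hji, hjR, hjφ, hjf, hjtri, -⟩ := hrel
  intro d hd
  by_cases hex : ∃ y, j y = d
  · obtain ⟨y, rfl⟩ := hex
    obtain ⟨⟨h31, h32⟩, h33⟩ := hoff _ y.2
    have hφφ : M.φ (M.φ y.1) ∉ R := by
      intro h
      apply y.2
      have := hR _ h
      rwa [h31] at this
    have hφ1 : M.φ y.1 ∉ R := fun h => hφφ (hR _ h)
    have e1 : M'.φ (j y) = j ⟨M.φ y.1, hφ1⟩ := hjφ y ⟨M.φ y.1, hφ1⟩ rfl
    have e2 : M'.φ (j ⟨M.φ y.1, hφ1⟩) = j ⟨M.φ (M.φ y.1), hφφ⟩ :=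
      hjφ ⟨M.φ y.1, hφ1⟩ ⟨M.φ (M.φ y.1), hφφ⟩ rfl
    have e3 : M'.φ (j ⟨M.φ (M.φ y.1), hφφ⟩) = j y :=
      hjφ ⟨M.φ (M.φ y.1), hφφ⟩ y h31
    refine ⟨⟨?_, ?_⟩, ?_⟩
    · rw [e1, e2, e3]
    · rw [e1]
      intro h
      exact h32 (congrArg Subtype.val (hji h))
    · rw [e1, e2, (hjf y).2, (hjf _).2, (hjf _).2]
      exact h33
  · apply hjtri d hd
    intro x hx
    exact hex ⟨x, hx⟩

/-- the map with one edge -/
def edgeMap {V : Type} (a : Equiv.Perm V) (x y : V) : LMap V Bool a where
  φ := Equiv.boolNot
  ι := Equiv.boolNot
  ιι := by intro d; cases d <;> rfl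
  ne := by intro d; cases d <;> simp
  f := fun d => if d then x else y
  γ := fun _ => 0
  h := fun _ => 0
  γι := by intro d; rfl
  tgt := by intro d; rfl

theorem isW_stp {V : Type} {G : SimpleGraph V} {Y : Set V} {ω : V → V → V → ZMod 2} {l l' : List V}
    {e : ZMod 2} (h : Stp G Y ω l l' e) {x z : V} (hl : IsW G x z l) : IsW G x z l' := by
  obtain ⟨hc, hf, hla⟩ := hl
  cases h with
  | ins u v x' y hxy hy =>
    refine ⟨?_, ?_, ?_⟩
    · rw [List.isChain_append] at hc ⊢
      refine ⟨hc.1, ?_, ?_⟩
      · rw [List.isChain_cons_cons, List.isChain_cons_cons]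
        exact ⟨hxy, hxy.symm, hc.2.1⟩
      · simpa using hc.2.2
    · cases u <;> simpa using hf
    · simpa [List.getLast?_append] using hla
  | del u v x' y hxy =>
    refine ⟨?_, ?_, ?_⟩
    · rw [List.isChain_append] at hc ⊢
      refine ⟨hc.1, ?_, ?_⟩
      · have h2 := hc.2.1
        rw [List.isChain_cons_cons, List.isChain_cons_cons] at h2
        exact h2.2.2
      · simpa using hc.2.2
    · cases u <;> simpa using hf
    · simpa [List.getLast?_append] using hla
  | exp u v x' y z' hxy hyz hxz hy =>
    refine ⟨?_, ?_, ?_⟩
    · rw [List.isChain_append] at hc ⊢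
      refine ⟨hc.1, ?_, ?_⟩
      · have h2 := hc.2.1
        rw [List.isChain_cons_cons] at h2
        rw [List.isChain_cons_cons, List.isChain_cons_cons]
        exact ⟨hxy, hyz, h2.2⟩
      · simpa using hc.2.2
    · cases u <;> simpa using hf
    · simpa [List.getLast?_append] using hla
  | con u v x' y z' hxy hyz hxz =>
    refine ⟨?_, ?_, ?_⟩
    · rw [List.isChain_append] at hc ⊢
      refine ⟨hc.1, ?_, ?_⟩
      · have h2 := hc.2.1
        rw [List.isChain_cons_cons, List.isChain_cons_cons] at h2
        rw [List.isChain_cons_cons]
        exact ⟨hxz, h2.2.2⟩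
      · simpa using hc.2.2
    · cases u <;> simpa using hf
    · simpa [List.getLast?_append] using hla

theorem short_walk {V : Type} {G : SimpleGraph V} {x : V} {l : List V} (hl : IsW G x x l)
    (h : ¬ 3 ≤ l.length) : l = [x] := by
  obtain ⟨hc, hf, hla⟩ := hl
  match l, h with
  | [], _ => simp at hf
  | [p], _ => simp at hf; simp [hf]
  | [p, q], _ =>
    simp at hf hla
    subst hf hla
    simp at hc
  | _ :: _ :: _ :: _, h => exact absurd (by simp) h

theorem sph (h1 : SphCStatement) (h2 : StepStatement) (h3 : CloseStatement)
    (_h4 : RelTransStatement) : SphStatement := by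
  intro V X a hmet hlarge hfree Y ω hω x e hx hom
  -- the main claim
  have key : ∀ (l l' : List V) (e : ZMod 2), Hom X.G Y ω l l' e → l' = [x] → IsW X.G x x l →
      (l = [x] → e = 0) ∧ (3 ≤ l.length → ∀ (D : Type) [Fintype D] (M : LMap V D a) (R : List D),
        M.HasWalk R l → M.Planar → M.AdjM X.G → M.Zero → (∀ d, M.f d ∈ Y) →
        (∀ d, d ∉ R → M.Tri d) → M.wsum {d | d ∈ R} ω + e = 0) := by
    intro l l' e hom
    induction hom with
    | refl l =>
      intro hl hw
      refine ⟨fun _ => rfl, fun h3 => ?_⟩
      rw [hl] at h3
      simp at h3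
    | @step l l1 l2 e1 e2 hst hom ih =>
      intro hl hw
      have hw1 := isW_stp hst hw
      obtain ⟨ih1, ih2⟩ := ih hl hw1
      refine ⟨?_, ?_⟩
      · rintro rfl
        generalize hq : [x] = q at hst
        cases hst with
        | ins u v x' y hxy hy =>
          have hu : u = [] := by
            cases u with
            | nil => rfl
            | cons b u => simp at hq
          subst hu
          simp only [List.nil_append, List.cons.injEq] at hq
          obtain ⟨rfl, rfl⟩ := hq
          have h5 := ih2 (by simp) Bool (edgeMap a x y) [true, false] ?_ ?_ ?_ ?_ ?_ ?_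
          · have h6 : (edgeMap a x y).wsum {d | d ∈ [true, false]} ω = 0 := by
              unfold LMap.wsum
              apply Finset.sum_eq_zero
              intro d _
              rw [if_pos]
              cases d <;> simp
            rw [h6] at h5
            simpa using h5
          · refine ⟨⟨by simp, by simp, by simp [edgeMap]⟩, 0, ?_, fun _ => rfl⟩
            simp [LMap.wk, LMap.wkA, LMap.t, edgeMap]
          · intro k _
            refine ⟨k, fun d => rfl, fun d => ?_⟩
            rw [CharTwo.add_self_eq_zero, CharTwo.add_self_eq_zero]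
          · intro d
            cases d
            · simp [LMap.t, edgeMap]
              exact hxy.symm
            · simp [LMap.t, edgeMap]
              exact hxy
          · intro d
            exact ⟨rfl, rfl⟩
          · intro d
            cases d
            · simpa [edgeMap] using hy
            · simpa [edgeMap] using hx
          · intro d hd
            exfalso
            apply hd
            cases d <;> simp
        | del u v x' y hxy =>
          exfalso
          have := congrArg List.length hq
          simp at this
          omega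
        | exp u v x' y z' hxy hyz hxz hy =>
          exfalso
          have := congrArg List.length hq
          simp at this
          omega
        | con u v x' y z' hxy hyz hxz =>
          exfalso
          have := congrArg List.length hq
          simp at this
          omega
      · intro hlen D _ M R hwalk hpl hadj hz hfY htri
        by_cases hlen1 : 3 ≤ l1.length
        · obtain ⟨D', _, M', R', hwalk', hpl', hadj', hrel, hz'⟩ := h2 V D X a hfree M R Y ω l l1 e1
            hω hpl hadj hwalk hst hlen1
          obtain ⟨hz1, hz2, hz3⟩ := hz' hz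
          have h5 := ih2 hlen1 D' M' R' hwalk' hpl' hadj' hz1 (hz2 hfY)
            (off_of_rel (face_closed hwalk.1) (face_closed hwalk'.1) htri hrel)
          rw [hz3] at h5
          rw [← h5]
          ring
        · have hl1 := short_walk hw1 hlen1
          subst hl1
          have he2 := ih1 rfl
          subst he2
          generalize hq : [x] = q at hst
          cases hst with
          | ins u v x' y hxy hy =>
            exfalso
            have := congrArg List.length hq
            simp at this
            omega
          | exp u v x' y z' hxy hyz hxz hy =>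
            exfalso
            have := congrArg List.length hq
            simp at this
            omega
          | con u v x' y z' hxy hyz hxz =>
            exfalso
            have := congrArg List.length hq
            simp at this
            omega
          | del u v x' y hxy =>
            have hu : u = [] := by
              cases u with
              | nil => rfl
              | cons b u => simp at hq
            subst hu
            simp only [List.nil_append, List.cons.injEq] at hq
            obtain ⟨rfl, rfl⟩ := hq
            obtain ⟨D', _, M', hpl', hadj', hrel, hz'⟩ := h3 V D X a hfree M R Y ω x y hpl hadj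
              hwalk
            obtain ⟨hz1, hz2, hz3⟩ := hz' hz
            have htri' := off_of_rel (face_closed hwalk.1) (R' := []) (by simp) htri hrel
            have h6 := h1 V D' X a hmet hlarge hfree M' Y ω hω hz1 (hz2 hfY) hpl' hadj'
              ⟨by simp, fun d _ => htri' d (by simp)⟩
            rw [hz3] at h6
            rw [h6]
            simp
  exact (key [x] [x] e hom rfl ⟨by simp, by simp, by simp⟩).1 rfl

end MSG.H21
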