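import Pool.Agent.Lib.MP_acafa7_al.MS.Iface1

/-! Proposition 5.1 (a) (module SphC): closed labelled maps have weight 0. -/

namespace MSG.H21

open Classical

theorem zero_ta {V D : Type} {a : Equiv.Perm V} {M : LMap V D a} (hz : M.Zero) (d : D) :
    M.t d = M.f (M.ι d) := by
  unfold LMap.t
  rw [(hz d).1]
  simp

theorem zero_tb {V D : Type} {a : Equiv.Perm V} {M : LMap V D a} (hz : M.Zero) (d : D) :
    M.t d = M.f (M.φ d) := by
  have h := M.tgt d
  unfold LMap.t
  rw [h, (hz d).2]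
  simp

theorem zero_sameV {V D : Type} {a : Equiv.Perm V} {M : LMap V D a} (hz : M.Zero) {d e : D}
    (h : M.SameV d e) : M.f e = M.f d := by
  have h' := h (fun x => M.f x = M.f d) (by
    intro x
    have : M.f (M.φ x) = M.f (M.ι x) := by rw [← zero_ta hz, ← zero_tb hz]
    rw [this])
  exact h'.1 rfl

theorem sphc (h1 : Gb0Statement) (h2 : RedStatement) (_h3 : AngStatement) : SphCStatement := by
  intro V D _ X a hmet hlarge hfree M Y ω hω hz hfY hpl hadj hoff
  induction hn : Fintype.card D using Nat.strong_induction_on generalizing D with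
  | _ n ih =>
  rcases isEmpty_or_nonempty D with hD | hD
  · unfold LMap.wsum
    simp
  have hlen : M.toDMap.LenOK (M.lenM X) ∅ := by
    refine ⟨fun d => hmet.pos _ _ (hadj d), ?_, ?_⟩
    · intro d
      unfold LMap.lenM
      rw [zero_ta hz (M.ι d), zero_ta hz d, M.ιι, hmet.symm]
    · intro d _
      obtain ⟨⟨h31, -⟩, -⟩ := hoff.2 d (by simp)
      have e1 := hadj d
      have e2 := hadj (M.φ d)
      have e3 := hadj (M.φ (M.φ d))
      rw [zero_tb hz] at e1 e2 e3
      rw [h31] at e3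
      unfold LMap.lenM
      rw [zero_tb hz d, zero_tb hz (M.φ d), zero_tb hz (M.φ (M.φ d)), h31]
      have h := hmet.tri (M.f (M.φ d)) (M.f d) (M.f (M.φ (M.φ d))) e1.symm e3.symm e2
      rw [hmet.symm (M.f d) (M.f (M.φ d)), hmet.symm (M.f (M.φ (M.φ d))) (M.f d)]
      exact h
  obtain ⟨d, hd⟩ := h1 D M.toDMap (M.lenM X) hpl hD ⟨fun d hd => absurd hd (by simp),
    fun d _ => (hoff.2 d (by simp)).1⟩ hlen
  obtain ⟨D', _, M', j, -, -, -, hpl', hadj', hoff', hcard, hz'⟩ := h2 V D X a hmet hlarge hfree M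
    ∅ Y ω d hω (Or.inr ⟨hz, hfY⟩) hpl hadj hoff (by simp) (by
      intro e _ hl
      have h := zero_sameV hz hl
      have h' := hadj e
      rw [zero_ta hz, h] at h'
      exact h'.ne rfl) hd
  obtain ⟨hz1, hz2⟩ := hz' hz
  obtain ⟨hz3, hz4⟩ := hz2 hfY
  have h6 : Set.range j = ∅ := by
    ext x
    simp
  rw [h6] at hoff'
  rw [← hz4 rfl]
  exact ih (Fintype.card D') (hn ▸ hcard) D' M' hz1 hz3 hpl' hadj' hoff' rfl

end MSG.H21
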